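import Pool.Agent.H745Z.FIDefs
import Pool.Agent.H745Z.FIProof

namespace Pool.Agent.Results.MP_921642_ag.BelowLdim

open Pool.Agent.H745Z.FI

/-- There are `n, d, m, s ≥ 1` with `m ≤ d` such that for general points the system of forms of
degree `d` with `s` points of multiplicity `m` in `ℙ^n` has dimension smaller than its linear
expected dimension. -/
theorem result : ∃ n d m s : ℕ, 1 ≤ n ∧ 1 ≤ m ∧ m ≤ d ∧ 1 ≤ s ∧
    ∃ P : MvPolynomial (Fin s × Fin (n + 1)) ℂ, P ≠ 0 ∧
      ∀ p : Fin s → Fin (n + 1) → ℂ, MvPolynomial.eval (fun ij => p ij.1 ij.2) P ≠ 0 →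
        (∀ i, p i ≠ 0) ∧
          (Module.finrank ℂ (linSys n d s (fun _ => m) p) : ℤ) < ldim n d s (fun _ => m) :=
  ⟨2, 3, 3, 3, by norm_num, by norm_num, le_rfl, by norm_num, main⟩

end Pool.Agent.Results.MP_921642_ag.BelowLdim
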